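import Pool.Agent.H5.OR.Targets

/-!
# Rows MD, MC, SB of board org_modules (MP_e1fd52_al)
-/

set_option autoImplicit false

open scoped Classical

namespace Pool.Agent.H97.OR

open ORg

theorem pf_MD (CA : T_CA) (CL : T_CL) (MM : T_MM) : T_MD := by
  intro X _ w L lt u hLn hW U d hd hD hcol i x hx1 hx2
  obtain ⟨c1, c2, c3, c4, c5, c6, c7, c8⟩ := CL X w L lt u hLn
  obtain ⟨D, hDf, hDc⟩ := hD
  have hL : (0:ℤ) < L := by exact_mod_cast hLn.pos
  have hd' : (0:ℤ) < d := by exact_mod_cast hd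
  refine MM X w L lt u hLn hW U (u i) x ?_ ?_
  · intro g j hg
    apply hcol
    intro hz
    obtain ⟨n, rfl⟩ := Subgroup.mem_zpowers_iff.1 hz
    exact c7 i x hx1 hx2 (j + L * n) (by rw [c4 j n]; exact hg)
  · have key : ∀ (k : ℤ) (g : FreeGroup X), g ∈ Cn (u i) x →
        (w ^ d) ^ k * g ∈ Cn (u (i + L * (d * k))) x := by
      intro k g hg
      rw [c4 i (d * k), zpow_mul, zpow_natCast]
      exact ((CA X (u i)).2.2.2.2.1 ((w ^ d) ^ k) g x).2 hg
    have hx1' : ∀ k : ℤ, x ≠ nv (lt (i + L * (d * k) - 1)) := by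
      intro k
      rw [show i + (L:ℤ) * (d * k) - 1 = (i - 1) + L * (d * k) by ring, c5]
      exact hx1
    have hx2' : ∀ k : ℤ, x ≠ lt (i + L * (d * k)) := by
      intro k
      rw [c5]
      exact hx2
    have hsub : {g | g ∈ Cn (u i) x ∧ ∃ y, g * lw y ∈ Cn (u i) x ∧ U g ≠ U (g * lw y)} ⊆
        ⋃ f ∈ D, {g | g ∈ Cn (u i) x ∧ ∃ k : ℤ, (w ^ d) ^ k * g = f} := by
      rintro g ⟨hg, y, -, hU⟩
      obtain ⟨k, hk⟩ := hDc g y hU
      simp only [Set.mem_iUnion]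
      exact ⟨_, hk, hg, k, rfl⟩
    refine Set.Finite.subset (Set.Finite.biUnion hDf ?_) hsub
    intro f _
    apply Set.Subsingleton.finite
    rintro g1 ⟨hg1, k1, h1⟩ g2 ⟨hg2, k2, h2⟩
    have e1 := key k1 g1 hg1
    have e2 := key k2 g2 hg2
    rw [h1] at e1
    rw [h2] at e2
    have e3 := c8 f _ _ x x (hx1' k1) (hx2' k1) (hx1' k2) (hx2' k2) e1 e2
    have hk : k1 = k2 := by
      have h5 : (L:ℤ) * (d * k1) = L * (d * k2) := by linarith
      exact mul_left_cancel₀ hd'.ne' (mul_left_cancel₀ hL.ne' h5)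
    subst hk
    exact mul_left_cancel (h1.trans h2.symm)

theorem pf_MC (CA : T_CA) (CL : T_CL) (MB : T_MB) (MD : T_MD) : T_MC := by
  intro X _ w L lt u hLn hW U c d i0 hd hU hD hcol h0
  obtain ⟨c1, c2, c3, c4, c5, c6, c7, c8⟩ := CL X w L lt u hLn
  have hL : (0:ℤ) < L := by exact_mod_cast hLn.pos
  have hd' : (0:ℤ) < d := by exact_mod_cast hd
  have hUn : ∀ (n : ℕ) g, U ((w ^ d) ^ n * g) = U g := by
    intro n
    induction n with
    | zero => intro g; simp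
    | succ n ih => intro g; rw [pow_succ, mul_assoc, ih, hU]
  have hUz : ∀ (k : ℤ) g, U ((w ^ d) ^ k * g) = U g := by
    intro k g
    obtain ⟨n, rfl | rfl⟩ := Int.eq_nat_or_neg k
    · rw [zpow_natCast]; exact hUn n g
    · have h := hUn n ((w ^ d) ^ (-(n:ℤ)) * g)
      rw [← mul_assoc, ← zpow_natCast (w ^ d) n, ← zpow_add, add_neg_cancel, zpow_zero,
        one_mul] at h
      exact h.symm
  have hsh : ∀ (i k : ℤ), (w ^ d) ^ k * u i = u (i + L * (d * k)) := by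
    intro i k
    rw [c4 i (d * k), zpow_mul, zpow_natCast]
  have key : ∀ (i k : ℤ) x (g : FreeGroup X), g ∈ Cn (u i) x →
      (w ^ d) ^ k * g ∈ Cn (u (i + L * (d * k))) x := by
    intro i k x g hg
    rw [← hsh]
    exact ((CA X (u i)).2.2.2.2.1 ((w ^ d) ^ k) g x).2 hg
  have hMD := MD X w L lt u hLn hW U d hd hD hcol
  have step : ∀ i : ℤ, (∀ g, g ∉ Subgroup.zpowers w → Thr u g i → Col U u g c) →
      (∀ x, x ≠ nv (lt i) → x ≠ lt (i + 1) →
        {g | g ∈ Cn (u (i + 1)) x ∧ U g ≠ c}.Finite) ∧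
      (∀ g, g ∉ Subgroup.zpowers w → Thr u g (i + 1) → Col U u g c) :=
    fun i hi => MB X w L lt u hLn hW U c i hcol
      (fun x hx1 hx2 => hMD (i + 1) x (by rw [add_sub_cancel_right]; exact hx1) hx2) hi
  have Pge : ∀ i : ℤ, i0 ≤ i → ∀ g, g ∉ Subgroup.zpowers w → Thr u g i → Col U u g c := by
    intro i hi
    induction i, hi using Int.le_induction with
    | base => exact h0
    | succ n hn ih => exact (step n ih).2
  have Pall : ∀ i : ℤ, ∀ g, g ∉ Subgroup.zpowers w → Thr u g i → Col U u g c := by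
    intro i g hg hT
    obtain ⟨k, hk⟩ : ∃ k : ℤ, k = |i0 - i| := ⟨_, rfl⟩
    have hk0 : 0 ≤ k := by rw [hk]; exact abs_nonneg _
    have hle : i0 ≤ i + L * (d * k) := by
      have h1 : i0 - i ≤ k := by rw [hk]; exact le_abs_self _
      have h2 : k ≤ d * k := by nlinarith
      have h3 : (d:ℤ) * k ≤ L * (d * k) := by
        have : 0 ≤ (d:ℤ) * k := by positivity
        nlinarith
      linarith
    have hg' : (w ^ d) ^ k * g ∉ Subgroup.zpowers w := by
      intro h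
      apply hg
      have h3 : (w ^ d) ^ k ∈ Subgroup.zpowers w :=
        Subgroup.zpow_mem _ (Subgroup.pow_mem _ (Subgroup.mem_zpowers w) d) k
      exact (Subgroup.mul_mem_cancel_left _ h3).1 h
    have hT' : Thr u ((w ^ d) ^ k * g) (i + L * (d * k)) := by
      obtain ⟨j, h | h⟩ := hT
      · refine ⟨j, Or.inl ⟨?_, ?_⟩⟩
        · rw [mul_assoc, h.1, hsh]
        · rw [mul_assoc, h.2, hsh]; congr 1; ring
      · refine ⟨j, Or.inr ⟨?_, ?_⟩⟩
        · rw [mul_assoc, h.1, hsh]; congr 1; ring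
        · rw [mul_assoc, h.2, hsh]
    obtain ⟨N, hN⟩ := Pge _ hle _ hg' hT'
    refine ⟨N, fun j hj => ?_⟩
    have := hN j hj
    rwa [mul_assoc, hUz] at this
  have hbr : ∀ (i : ℤ) x, x ≠ nv (lt (i - 1)) → x ≠ lt i →
      {g | g ∈ Cn (u i) x ∧ U g ≠ c}.Finite := by
    intro i x hx1 hx2
    have := (step (i - 1) (Pall (i - 1))).1 x hx1 (by rw [sub_add_cancel]; exact hx2)
    rwa [sub_add_cancel] at this
  obtain ⟨M, hM⟩ : ∃ M : ℤ, M = L * d := ⟨_, rfl⟩
  have hMpos : 0 < M := by rw [hM]; exact mul_pos hL hd'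
  refine ⟨⋃ i ∈ Set.Ico (0:ℤ) M, ({u i} ∪ ⋃ x : X × Bool,
    {g | g ∈ Cn (u i) x ∧ U g ≠ c ∧ x ≠ nv (lt (i - 1)) ∧ x ≠ lt i}), ?_, ?_⟩
  · refine Set.Finite.biUnion (Set.finite_Ico _ _) (fun i _ =>
      Set.Finite.union (Set.finite_singleton _) (Set.finite_iUnion fun x => ?_))
    by_cases hx : x ≠ nv (lt (i - 1)) ∧ x ≠ lt i
    · exact (hbr i x hx.1 hx.2).subset (fun g hg => ⟨hg.1, hg.2.1⟩)
    · convert Set.finite_empty
      ext g
      simp only [Set.mem_setOf_eq, Set.mem_empty_iff_false, iff_false]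
      rintro ⟨-, -, h1, h2⟩
      exact hx ⟨h1, h2⟩
  · intro g hg
    have hmod : ∀ i : ℤ, i + L * (d * (-(i / M))) = i % M := by
      intro i
      have h1 := Int.emod_add_mul_ediv i M
      have h2 : (L:ℤ) * (d * (-(i / M))) = -(M * (i / M)) := by
        rw [← mul_assoc, ← hM]; ring
      rw [h2]; linarith
    have hI : ∀ i : ℤ, i % M ∈ Set.Ico (0:ℤ) M := fun i =>
      ⟨Int.emod_nonneg _ hMpos.ne', Int.emod_lt_of_pos _ hMpos⟩
    rcases c6 g with ⟨i, rfl⟩ | ⟨i, x, hx1, hx2, hgx⟩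
    · refine ⟨-(i / M), ?_⟩
      rw [hsh, hmod]
      simp only [Set.mem_iUnion]
      exact ⟨i % M, hI i, Or.inl rfl⟩
    · refine ⟨-(i / M), ?_⟩
      simp only [Set.mem_iUnion]
      refine ⟨i % M, hI i, Or.inr ?_⟩
      simp only [Set.mem_iUnion]
      refine ⟨x, ?_, ?_, ?_, ?_⟩
      · rw [← hmod i]; exact key i _ x g hgx
      · rw [hUz]; exact hg
      · rw [← hmod i, show i + (L:ℤ) * (d * (-(i / M))) - 1 =
          (i - 1) + L * (d * (-(i / M))) by ring, c5]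
        exact hx1
      · rw [← hmod i, c5]; exact hx2

theorem pf_SB (TA : T_TA) (CL : T_CL) : T_SB := by
  intro X S w L lt u a b x0 s d g hLn hab hd hs hk
  obtain ⟨c1, c2, c3, c4, c5, c6, c7, c8⟩ := CL X w L lt u hLn
  obtain ⟨t1, t2, t3, t4, t5, t6, t7, t8, t9, t10⟩ := TA (FreeGroup X) S
  have hL : (0:ℤ) < L := by exact_mod_cast hLn.pos
  have hd' : (0:ℤ) < d := by exact_mod_cast hd
  obtain ⟨M, hM⟩ : ∃ M : ℤ, M = L * d := ⟨_, rfl⟩
  have hMpos : 0 < M := by rw [hM]; exact mul_pos hL hd'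
  let h : ℤ → FreeGroup X := fun n => g * (w ^ d) ^ n
  let e : ℤ → S.V × S.V := fun n => ((h n)⁻¹ • a, (h n)⁻¹ • b)
  let F : ℤ → Set (S.V × S.V) := fun r =>
    {p | S.T.Adj p.1 p.2 ∧ u r • x0 ∈ S.hs p.1 p.2 ∧ s ∈ S.hs p.2 p.1} ∪
    {p | S.T.Adj p.1 p.2 ∧ s ∈ S.hs p.1 p.2 ∧ u r • x0 ∈ S.hs p.2 p.1}
  have hF : ∀ r, (F r).Finite := fun r => (t10 _ _).union (t10 _ _)
  have hsn : ∀ n : ℤ, (w ^ d) ^ n • s = s := by
    intro n
    have h1 : (w ^ d) ∈ MulAction.stabilizer (FreeGroup X) s := hs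
    exact (MulAction.stabilizer (FreeGroup X) s).zpow_mem h1 n
  have hinj : Function.Injective e := by
    intro n m hnm
    by_contra hne
    have h1 : (h n)⁻¹ • a = (h m)⁻¹ • a := congrArg Prod.fst hnm
    have h2 : (h n)⁻¹ • b = (h m)⁻¹ • b := congrArg Prod.snd hnm
    have e1 : (h m) * (h n)⁻¹ = g * w ^ ((d:ℤ) * (m - n)) * g⁻¹ := by
      simp only [h]
      rw [zpow_mul, zpow_natCast, zpow_sub]
      simp [mul_inv_rev, mul_assoc]
    refine hk ((d:ℤ) * (m - n)) (mul_ne_zero hd'.ne' (sub_ne_zero.2 (Ne.symm hne))) ⟨?_, ?_⟩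
    · rw [← e1, mul_smul, h1, smul_inv_smul]
    · rw [← e1, mul_smul, h2, smul_inv_smul]
  have hbad : ∀ j : ℤ, ¬ ((g * u j) • x0 ∈ S.hs a b ↔ g • s ∈ S.hs a b) →
      e (j / M) ∈ F (j % M) := by
    intro j hj
    have hj1 : u j = (w ^ d) ^ (j / M) * u (j % M) := by
      have h1 := c4 (j % M) (d * (j / M))
      rw [zpow_mul, zpow_natCast] at h1
      rw [← h1]
      congr 1
      have h2 := Int.emod_add_mul_ediv j M
      have h3 : (L:ℤ) * (d * (j / M)) = M * (j / M) := by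
        rw [← mul_assoc, ← hM]
      rw [h3]; exact h2.symm
    have A1 : (g * u j) • x0 = h (j / M) • (u (j % M) • x0) := by
      simp only [h]
      rw [hj1]
      simp only [mul_smul]
    have A2 : g • s = h (j / M) • s := by
      simp only [h]
      rw [mul_smul, hsn]
    have B1 : ∀ v, h (j / M) • v ∈ S.hs a b ↔ v ∈ S.hs (e (j / M)).1 (e (j / M)).2 := by
      intro v
      have := t3 (h (j / M)) ((h (j / M))⁻¹ • a) ((h (j / M))⁻¹ • b) v
      rwa [smul_inv_smul, smul_inv_smul] at this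
    rw [A1, A2, B1, B1] at hj
    have hadj : S.T.Adj (e (j / M)).1 (e (j / M)).2 := (t2 _ a b).2 hab
    by_cases hc : u (j % M) • x0 ∈ S.hs (e (j / M)).1 (e (j / M)).2
    · left
      refine ⟨hadj, hc, ?_⟩
      have hs' : s ∉ S.hs (e (j / M)).1 (e (j / M)).2 := fun hh => hj ⟨fun _ => hh, fun _ => hc⟩
      exact ((t4 _ _ hadj s).1).resolve_left hs'
    · right
      have hs' : s ∈ S.hs (e (j / M)).1 (e (j / M)).2 := by
        by_contra hh
        exact hj ⟨fun q => absurd q hc, fun q => absurd q hh⟩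
      exact ⟨hadj, hs', ((t4 _ _ hadj _).1).resolve_left hc⟩
  have hB : {j : ℤ | ¬ ((g * u j) • x0 ∈ S.hs a b ↔ g • s ∈ S.hs a b)}.Finite := by
    refine Set.Finite.subset (Set.Finite.biUnion (Set.finite_Ico (0:ℤ) M)
      (fun r _ => ((hF r).preimage hinj.injOn).image (fun n => M * n + r))) ?_
    intro j hj
    simp only [Set.mem_iUnion]
    refine ⟨j % M, ⟨Int.emod_nonneg _ hMpos.ne', Int.emod_lt_of_pos _ hMpos⟩, j / M,
      hbad j hj, ?_⟩
    exact Int.mul_ediv_add_emod j M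
  obtain ⟨K, hK⟩ := (hB.image (fun j => |j|)).bddAbove
  refine ⟨K.toNat + 1, fun j hj => ?_⟩
  by_contra hne
  have hne' : ¬ ((g * u j) • x0 ∈ S.hs a b ↔ g • s ∈ S.hs a b) := by
    intro hiff
    exact hne (by simpa [decide_eq_decide] using hiff)
  have hmem : |j| ≤ K := hK ⟨j, hne', rfl⟩
  have h5 : K ≤ (K.toNat : ℤ) := Int.self_le_toNat K
  push_cast at hj
  omega

end Pool.Agent.H97.OR
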