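import Pool.Agent.H5.OR.Targets

/-!
# Row SU of board org_modules (MP_e1fd52_al)
-/

set_option autoImplicit false

open scoped Classical

namespace Pool.Agent.H97.OR

open ORg

theorem pf_SU (AM : T_AM) (AC : T_AC) (ML : T_ML) (FF : T_FF) : T_SU := by
  intro X1 X2 P G _ _ w a iF iP hPO hRw hWw hfin hnt hKK hInf
  have hw1 : w ≠ 1 := by
    intro h
    rcases hRw 1 0 (by rw [zpow_zero, h]) with h | h <;> omega
  have hflinj : Function.Injective (fl (X1 := X1) (X2 := X2)) :=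
    FreeGroup.map_injective Sum.inl_injective
  have hflw1 : (fl w : FreeGroup (X1 ⊕ X2)) ≠ 1 := by
    intro h
    exact hw1 (hflinj (by rw [h, map_one]))
  have hRfl : Root (fl w : FreeGroup (X1 ⊕ X2)) := by
    intro v k hv
    have h1 : v * fl w * v⁻¹ = fl w := by
      rw [← hv, ← zpow_one v, ← zpow_mul, ← zpow_neg, ← zpow_add, ← zpow_add]
      congr 1
      ring
    obtain ⟨x1, rfl⟩ := FF X1 X2 v w w hw1 h1
    apply hRw x1 k
    apply hflinj
    rw [map_zpow, hv]
  have hPO' : IsPO (zpowersHom P a) (zpowersHom (FreeGroup (X1 ⊕ X2)) (fl w)) iP iF :=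
    { comm := fun h => (hPO.comm h).symm
      lift := by
        intro K _ u v huv
        obtain ⟨k, h1, h2⟩ := hPO.lift K v u (fun h => (huv h).symm)
        exact ⟨k, h2, h1⟩
      uniq := by
        intro K _ k l h1 h2
        exact hPO.uniq K k l h2 h1 }
  have hj1 : Function.Injective (zpowersHom P a) := by
    rw [injective_iff_map_eq_one]
    intro n hn
    by_contra hne
    rw [zpowersHom_apply] at hn
    exact hInf (Multiplicative.toAdd n) (fun h => hne (by
      rw [← toAdd_eq_zero]; exact h)) hn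
  have hj2 : Function.Injective (zpowersHom (FreeGroup (X1 ⊕ X2)) (fl w)) := by
    rw [injective_iff_map_eq_one]
    intro n hn
    by_contra hne
    rw [zpowersHom_apply] at hn
    exact hflw1 ((IsMulTorsionFree.zpow_eq_one_iff_left (fun h => hne (by
      rw [← toAdd_eq_zero]; exact h))).1 hn)
  obtain ⟨hPi, hFi, hint, S, r, b, hAm⟩ := AM _ _ _ _ _ _ _ _ hPO' hj1 hj2
  have heq : iF (fl w) = iP a := by
    have := hPO.comm (Multiplicative.ofAdd 1)
    simpa [zpowersHom_apply] using this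
  have hinter : ∀ x y, iF x = iP y → ∃ k : ℤ, x = fl w ^ k ∧ y = a ^ k := by
    intro x y hxy
    obtain ⟨h, h1, h2⟩ := hint y x hxy.symm
    exact ⟨Multiplicative.toAdd h, by rw [h2, zpowersHom_apply], by rw [h1, zpowersHom_apply]⟩
  refine ⟨S, r, b, ⟨hFi, hPi, hAm, heq, hinter, ?_, hRw, hWw, hfin, hnt, hKK⟩⟩
  refine AC G iP.range iF.range S r b hAm ?_
  rintro x ⟨y, rfl⟩ c ⟨p1, rfl⟩ ⟨c1, hc1⟩ hc ⟨p2, hp2⟩
  obtain ⟨k, hk1, hk2⟩ := hinter c1 p1 hc1
  have hk0 : k ≠ 0 := by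
    rintro rfl
    apply hc
    rw [hk2, zpow_zero, map_one]
  obtain ⟨n, hn1, hn2⟩ := hinter (y * fl w ^ k * y⁻¹) p2 (by
    rw [hp2, ← hc1, hk1, map_mul, map_mul, map_inv])
  have hy := ML (X1 ⊕ X2) (fl w) y k n hRfl hk0 hn1
  obtain ⟨m, hm⟩ := Subgroup.mem_zpowers_iff.1 hy
  exact ⟨a ^ m, by rw [map_zpow, ← heq, ← map_zpow, hm]⟩

end Pool.Agent.H97.OR
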